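import Mathlib

set_option autoImplicit false

open Set Filter Topology
open scoped RealInnerProductSpace Gradient

namespace Pool.Agent.Results.MP_d7bb9e_an.ConnectedRegion

/-- Euclidean space of dimension `n`. -/
abbrev E (n : ℕ) := EuclideanSpace ℝ (Fin n)

/-- The critical set `C(f)`. -/
def crit {n : ℕ} (f : E n → ℝ) : Set (E n) := {x | ∇ f x = 0}

/-- The set of points where the Hessian form `D²f(x)(v,v)` is positive definite. -/
def hessPos {n : ℕ} (f : E n → ℝ) : Set (E n) :=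
  {x | ∀ v : E n, v ≠ 0 → 0 < fderiv ℝ (fderiv ℝ f) x v v}

/-- The truncation `T_q(f) = max{q, f}`. -/
noncomputable def trunc {n : ℕ} (f : E n → ℝ) (q : ℝ) : E n → ℝ := fun x => max q (f x)

/-- The levels `q ≥ inf f` such that `T_r(f)` is convex for every `r ≥ q`. -/
def goodLevels {n : ℕ} (f : E n → ℝ) : Set ℝ :=
  {q | (⨅ x, ((f x : ℝ) : EReal)) ≤ (q : EReal) ∧ ∀ r, q ≤ r → ConvexOn ℝ univ (trunc f r)}

/-- The smallest convexity level. -/
noncomputable def scl {n : ℕ} (f : E n → ℝ) : ℝ := sInf (goodLevels f)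

/-- Morse: the Hessian form is nondegenerate at every critical point. -/
def IsMorse {n : ℕ} (f : E n → ℝ) : Prop :=
  ∀ x ∈ crit f, ∀ v : E n, (∀ w : E n, fderiv ℝ (fderiv ℝ f) x v w = 0) → v = 0

/-- The hypotheses (H). -/
def HypH {n : ℕ} (f : E n → ℝ) : Prop :=
  ContDiff ℝ 2 f ∧ IsMorse f ∧ ¬ ConvexOn ℝ univ f ∧ (goodLevels f).Nonempty ∧
  scl f ∈ range f ∧ (∀ x, f x = scl f → x ∉ crit f) ∧ {x | scl f < f x} ⊆ hessPos f

/-- The set `Hess⁺(f) \ f⁻¹(scl(f), ∞)`. -/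
def RR {n : ℕ} (f : E n → ℝ) : Set (E n) := hessPos f \ {x | scl f < f x}

/-- The valence of a map: the supremum of the cardinalities of its fibres. -/
noncomputable def valence {n : ℕ} (F : E n → E n) : ℕ∞ := ⨆ y, (F ⁻¹' {y}).encard

/-- The number of connected components of a set (with the subspace topology). -/
noncomputable def numComp {n : ℕ} (S : Set (E n)) : ℕ∞ := ENat.card (ConnectedComponents ↥S)

/-! ### The example `f(x,y) = (x²+y²)² - 2x² + y` -/

noncomputable def ff (p : E 2) : ℝ := (p 0 ^ 2 + p 1 ^ 2) ^ 2 - 2 * p 0 ^ 2 + p 1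

noncomputable def pt (u v : ℝ) : E 2 := WithLp.toLp 2 ![u, v]

@[simp] lemma pt0 (u v : ℝ) : pt u v 0 = u := rfl
@[simp] lemma pt1 (u v : ℝ) : pt u v 1 = v := rfl

noncomputable abbrev P0 : E 2 →L[ℝ] ℝ := EuclideanSpace.proj (𝕜 := ℝ) (0 : Fin 2)
noncomputable abbrev P1 : E 2 →L[ℝ] ℝ := EuclideanSpace.proj (𝕜 := ℝ) (1 : Fin 2)

noncomputable def AA (p : E 2) : ℝ := 4 * p 0 * (p 0 ^ 2 + p 1 ^ 2) - 4 * p 0
noncomputable def BB (p : E 2) : ℝ := 4 * p 1 * (p 0 ^ 2 + p 1 ^ 2) + 1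

lemma hasP0 (p : E 2) : HasFDerivAt (fun z : E 2 => z 0) P0 p := P0.hasFDerivAt
lemma hasP1 (p : E 2) : HasFDerivAt (fun z : E 2 => z 1) P1 p := P1.hasFDerivAt

lemma deriv_ff (p : E 2) : HasFDerivAt ff (AA p • P0 + BB p • P1) p := by
  have h0 := hasP0 p
  have h1 := hasP1 p
  have h := (((((h0.pow 2).add (h1.pow 2)).pow 2).sub ((h0.pow 2).const_mul 2)).add h1)
  refine h.congr_fderiv ?_
  ext v
  simp [AA, BB]
  ring

lemma deriv_AA (p : E 2) : HasFDerivAt AA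
    ((12 * p 0 ^ 2 + 4 * p 1 ^ 2 - 4) • P0 + (8 * p 0 * p 1) • P1) p := by
  have h0 := hasP0 p
  have h1 := hasP1 p
  have h := ((h0.const_mul 4).mul ((h0.pow 2).add (h1.pow 2))).sub (h0.const_mul 4)
  refine h.congr_fderiv ?_
  ext v
  simp
  ring

lemma deriv_BB (p : E 2) : HasFDerivAt BB
    ((8 * p 0 * p 1) • P0 + (4 * p 0 ^ 2 + 12 * p 1 ^ 2) • P1) p := by
  have h0 := hasP0 p
  have h1 := hasP1 p
  have h := ((h1.const_mul 4).mul ((h0.pow 2).add (h1.pow 2))).add_const 1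
  refine h.congr_fderiv ?_
  ext v
  simp
  ring

lemma fderiv_ff : fderiv ℝ ff = fun p => AA p • P0 + BB p • P1 := by
  funext p; exact (deriv_ff p).fderiv

lemma hess_ff (p v w : E 2) : fderiv ℝ (fderiv ℝ ff) p v w =
    ((12 * p 0 ^ 2 + 4 * p 1 ^ 2 - 4) * v 0 + (8 * p 0 * p 1) * v 1) * w 0 +
    ((8 * p 0 * p 1) * v 0 + (4 * p 0 ^ 2 + 12 * p 1 ^ 2) * v 1) * w 1 := by
  rw [fderiv_ff]
  have h : HasFDerivAt (fun p : E 2 => AA p • P0 + BB p • P1) _ p :=
    ((deriv_AA p).smul_const P0).add ((deriv_BB p).smul_const P1)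
  rw [h.fderiv]
  simp

lemma grad_ff (p : E 2) : ∇ ff p = pt (AA p) (BB p) := by
  have : HasGradientAt ff (pt (AA p) (BB p)) p := by
    rw [hasGradientAt_iff_hasFDerivAt]
    refine (deriv_ff p).congr_fderiv ?_
    ext v
    rw [InnerProductSpace.toDual_apply_apply, PiLp.inner_apply, Fin.sum_univ_two]
    simp [mul_comm]
  exact this.gradient

lemma grad_zero_iff (p : E 2) : ∇ ff p = 0 ↔ AA p = 0 ∧ BB p = 0 := by
  rw [grad_ff]
  constructor
  · intro h
    exact ⟨congrArg (fun z : E 2 => z 0) h, congrArg (fun z : E 2 => z 1) h⟩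
  · rintro ⟨h1, h2⟩
    ext i
    fin_cases i
    · exact h1
    · exact h2

lemma mem_hessPos (p : E 2) :
    p ∈ hessPos ff ↔ p 0 ^ 2 + 3 * p 1 ^ 2 < 3 * (p 0 ^ 2 + p 1 ^ 2) ^ 2 := by
  constructor
  · intro h
    by_contra hcon
    push Not at hcon
    -- a bad direction
    by_cases hz : 4 * p 0 ^ 2 + 12 * p 1 ^ 2 = 0
    · have h0 : p 0 = 0 := by nlinarith [sq_nonneg (p 0), sq_nonneg (p 1)]
      have h1 : p 1 = 0 := by nlinarith [sq_nonneg (p 0), sq_nonneg (p 1)]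
      have hv : pt 1 0 ≠ 0 := fun hh => by
        have := congrArg (fun z : E 2 => z 0) hh
        simp at this
      have := h _ hv
      rw [hess_ff] at this
      simp [h0, h1] at this
      linarith
    · have hpos : 0 < 4 * p 0 ^ 2 + 12 * p 1 ^ 2 :=
        lt_of_le_of_ne (by positivity) (Ne.symm hz)
      have hv : pt (4 * p 0 ^ 2 + 12 * p 1 ^ 2) (-(8 * p 0 * p 1)) ≠ 0 := fun hh => by
        have := congrArg (fun z : E 2 => z 0) hh
        exact hz this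
      have := h _ hv
      rw [hess_ff] at this
      simp only [pt0, pt1] at this
      have e : ((12 * p 0 ^ 2 + 4 * p 1 ^ 2 - 4) * (4 * p 0 ^ 2 + 12 * p 1 ^ 2) +
          (8 * p 0 * p 1) * (-(8 * p 0 * p 1))) * (4 * p 0 ^ 2 + 12 * p 1 ^ 2) +
          ((8 * p 0 * p 1) * (4 * p 0 ^ 2 + 12 * p 1 ^ 2) +
            (4 * p 0 ^ 2 + 12 * p 1 ^ 2) * (-(8 * p 0 * p 1))) * (-(8 * p 0 * p 1)) =
          (4 * p 0 ^ 2 + 12 * p 1 ^ 2) * (16 * (3 * (p 0 ^ 2 + p 1 ^ 2) ^ 2 -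
            (p 0 ^ 2 + 3 * p 1 ^ 2))) := by ring
      rw [e] at this
      have h3 := (mul_pos_iff_of_pos_left hpos).1 this
      linarith
  · intro h v hv
    rw [hess_ff]
    have hpos : 0 < 4 * p 0 ^ 2 + 12 * p 1 ^ 2 := by
      rcases eq_or_lt_of_le (by positivity : 0 ≤ 4 * p 0 ^ 2 + 12 * p 1 ^ 2) with h1 | h1
      · exfalso
        have h0 : p 0 = 0 := by nlinarith [sq_nonneg (p 0), sq_nonneg (p 1)]
        have h1 : p 1 = 0 := by nlinarith [sq_nonneg (p 0), sq_nonneg (p 1)]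
        rw [h0, h1] at h; norm_num at h
      · exact h1
    have e : (4 * p 0 ^ 2 + 12 * p 1 ^ 2) *
        (((12 * p 0 ^ 2 + 4 * p 1 ^ 2 - 4) * v 0 + (8 * p 0 * p 1) * v 1) * v 0 +
        ((8 * p 0 * p 1) * v 0 + (4 * p 0 ^ 2 + 12 * p 1 ^ 2) * v 1) * v 1) =
        16 * (3 * (p 0 ^ 2 + p 1 ^ 2) ^ 2 - (p 0 ^ 2 + 3 * p 1 ^ 2)) * v 0 ^ 2 +
        ((8 * p 0 * p 1) * v 0 + (4 * p 0 ^ 2 + 12 * p 1 ^ 2) * v 1) ^ 2 := by ring
    have hd : 0 < 16 * (3 * (p 0 ^ 2 + p 1 ^ 2) ^ 2 - (p 0 ^ 2 + 3 * p 1 ^ 2)) := by linarith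
    have hprod : 0 < (4 * p 0 ^ 2 + 12 * p 1 ^ 2) *
        (((12 * p 0 ^ 2 + 4 * p 1 ^ 2 - 4) * v 0 + (8 * p 0 * p 1) * v 1) * v 0 +
        ((8 * p 0 * p 1) * v 0 + (4 * p 0 ^ 2 + 12 * p 1 ^ 2) * v 1) * v 1) := by
      rw [e]
      by_cases hv0 : v 0 = 0
      · have hv1 : v 1 ≠ 0 := by
          intro h1
          apply hv
          ext i
          fin_cases i
          · exact hv0
          · exact h1
        rw [hv0]
        have : 0 < (4 * p 0 ^ 2 + 12 * p 1 ^ 2) * (4 * p 0 ^ 2 + 12 * p 1 ^ 2) * (v 1 ^ 2) := by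
          positivity
        nlinarith
      · have : 0 < v 0 ^ 2 := by positivity
        have := mul_pos hd this
        positivity
    exact (mul_pos_iff_of_pos_left hpos).1 hprod

/-- global support inequality at points outside the open unit disc -/
lemma support (p z : E 2) (hp : 1 ≤ p 0 ^ 2 + p 1 ^ 2) :
    ff p + AA p * (z 0 - p 0) + BB p * (z 1 - p 1) ≤ ff z := by
  have e : ff z - (ff p + AA p * (z 0 - p 0) + BB p * (z 1 - p 1)) =
      (2 * (p 0 * (z 0 - p 0) + p 1 * (z 1 - p 1)) + ((z 0 - p 0) ^ 2 + (z 1 - p 1) ^ 2)) ^ 2 +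
      2 * ((p 0 ^ 2 + p 1 ^ 2) - 1) * ((z 0 - p 0) ^ 2 + (z 1 - p 1) ^ 2) +
      2 * (z 1 - p 1) ^ 2 := by
    unfold ff AA BB; ring
  have : 0 ≤ 2 * ((p 0 ^ 2 + p 1 ^ 2) - 1) * ((z 0 - p 0) ^ 2 + (z 1 - p 1) ^ 2) := by
    apply mul_nonneg (by linarith) (by positivity)
  have : 0 ≤ ff z - (ff p + AA p * (z 0 - p 0) + BB p * (z 1 - p 1)) := by
    rw [e]; positivity
  linarith

lemma out_of_disc {p : E 2} (hp : 2 < ff p) : 1 < p 0 ^ 2 + p 1 ^ 2 := by
  by_contra hcon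
  push Not at hcon
  unfold ff at hp
  have h1 : p 1 ^ 2 ≤ 1 := by nlinarith [sq_nonneg (p 0)]
  have h2 : p 1 ≤ 1 := by nlinarith
  have h3 : (p 0 ^ 2 + p 1 ^ 2) ^ 2 ≤ 1 := by nlinarith [sq_nonneg (p 0), sq_nonneg (p 1)]
  nlinarith [sq_nonneg (p 0)]

lemma trunc_convex {q : ℝ} (hq : 2 ≤ q) : ConvexOn ℝ univ (trunc ff q) := by
  refine ⟨convex_univ, fun x _ y _ a b ha hb hab => ?_⟩
  unfold trunc
  simp only [smul_eq_mul]
  set p : E 2 := a • x + b • y with hp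
  have hp0 : p 0 = a * x 0 + b * y 0 := by simp [hp]
  have hp1 : p 1 = a * x 1 + b * y 1 := by simp [hp]
  apply max_le
  · calc q = a * q + b * q := by rw [← add_mul, hab, one_mul]
      _ ≤ _ := by
        apply add_le_add
        · exact mul_le_mul_of_nonneg_left (le_max_left _ _) ha
        · exact mul_le_mul_of_nonneg_left (le_max_left _ _) hb
  · by_cases h : ff p ≤ q
    · calc ff p ≤ q := h
        _ = a * q + b * q := by rw [← add_mul, hab, one_mul]
        _ ≤ _ := by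
          apply add_le_add
          · exact mul_le_mul_of_nonneg_left (le_max_left _ _) ha
          · exact mul_le_mul_of_nonneg_left (le_max_left _ _) hb
    · push Not at h
      have hd := (out_of_disc (lt_of_le_of_lt hq h)).le
      have h1 := support p x hd
      have h2 := support p y hd
      have h3 : a * ff x + b * ff y ≥ ff p := by
        have e1 := mul_le_mul_of_nonneg_left h1 ha
        have e2 := mul_le_mul_of_nonneg_left h2 hb
        have hb' : b = 1 - a := by linarith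
        have e3 : a * (ff p + AA p * (x 0 - p 0) + BB p * (x 1 - p 1)) +
            b * (ff p + AA p * (y 0 - p 0) + BB p * (y 1 - p 1)) = ff p := by
          have z0 : a * (x 0 - p 0) + b * (y 0 - p 0) = 0 := by rw [hp0, hb']; ring
          have z1 : a * (x 1 - p 1) + b * (y 1 - p 1) = 0 := by rw [hp1, hb']; ring
          have e4 : a * (ff p + AA p * (x 0 - p 0) + BB p * (x 1 - p 1)) +
            b * (ff p + AA p * (y 0 - p 0) + BB p * (y 1 - p 1)) = (a + b) * ff p +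
            AA p * (a * (x 0 - p 0) + b * (y 0 - p 0)) +
            BB p * (a * (x 1 - p 1) + b * (y 1 - p 1)) := by ring
          rw [e4, z0, z1, hab]
          ring
        linarith
      calc ff p ≤ a * ff x + b * ff y := h3
        _ ≤ _ := by
          apply add_le_add
          · exact mul_le_mul_of_nonneg_left (le_max_right _ _) ha
          · exact mul_le_mul_of_nonneg_left (le_max_right _ _) hb

/-- below level `2` the truncation is not convex -/
lemma not_trunc_convex {q : ℝ} (hq : q < 2) : ¬ ConvexOn ℝ univ (trunc ff q) := by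
  intro hc
  -- choose a height `h < 1` with `h^4 + h > q`
  obtain ⟨h, hh0, hh1, hhq⟩ : ∃ h : ℝ, 0 < h ∧ h < 1 ∧ q < h ^ 4 + h := by
    have hcont : ContinuousAt (fun h : ℝ => h ^ 4 + h) 1 := by fun_prop
    have h1 : ∀ᶠ h in 𝓝 (1:ℝ), q < h ^ 4 + h := by
      apply hcont.eventually (lt_mem_nhds _)
      norm_num; exact hq
    have h2 : ∀ᶠ h in 𝓝[<] (1:ℝ), q < h ^ 4 + h := h1.filter_mono nhdsWithin_le_nhds
    have h3 : ∀ᶠ h in 𝓝[<] (1:ℝ), h ∈ Ioo (0:ℝ) 1 := Ioo_mem_nhdsLT one_pos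
    obtain ⟨h, hA, hB⟩ := (h2.and h3).exists
    exact ⟨h, hB.1, hB.2, hA⟩
  -- choose a small horizontal displacement
  obtain ⟨s, hs0, hs1, hsq⟩ : ∃ s : ℝ, 0 < s ∧ s ^ 2 + 2 * h ^ 2 < 2 ∧
      q < (s ^ 2 + h ^ 2) ^ 2 - 2 * s ^ 2 + h := by
    have c1 : ContinuousAt (fun s : ℝ => s ^ 2 + 2 * h ^ 2) 0 := by fun_prop
    have c2 : ContinuousAt (fun s : ℝ => (s ^ 2 + h ^ 2) ^ 2 - 2 * s ^ 2 + h) 0 := by fun_prop
    have e1 : ∀ᶠ s in 𝓝 (0:ℝ), s ^ 2 + 2 * h ^ 2 < 2 := by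
      apply c1.eventually (gt_mem_nhds _)
      nlinarith
    have e2 : ∀ᶠ s in 𝓝 (0:ℝ), q < (s ^ 2 + h ^ 2) ^ 2 - 2 * s ^ 2 + h := by
      apply c2.eventually (lt_mem_nhds _)
      have : ((0:ℝ) ^ 2 + h ^ 2) ^ 2 - 2 * 0 ^ 2 + h = h ^ 4 + h := by ring
      show q < ((0:ℝ) ^ 2 + h ^ 2) ^ 2 - 2 * 0 ^ 2 + h
      rw [this]; exact hhq
    have e3 : ∀ᶠ s in 𝓝[>] (0:ℝ), s ∈ Ioi (0:ℝ) := self_mem_nhdsWithin
    obtain ⟨s, hA, hB⟩ := (((e1.and e2).filter_mono nhdsWithin_le_nhds).and e3).exists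
    exact ⟨s, hB, hA.1, hA.2⟩
  have hmid := hc.2 (mem_univ (pt s h)) (mem_univ (pt (-s) h)) (by norm_num : (0:ℝ) ≤ 1/2)
    (by norm_num : (0:ℝ) ≤ 1/2) (by norm_num)
  have ep : (1/2 : ℝ) • pt s h + (1/2 : ℝ) • pt (-s) h = pt 0 h := by
    ext i
    fin_cases i
    · show (1/2 : ℝ) * s + (1/2) * (-s) = 0
      ring
    · show (1/2 : ℝ) * h + (1/2) * h = h
      ring
  rw [ep] at hmid
  unfold trunc ff at hmid
  simp only [pt0, pt1, smul_eq_mul] at hmid
  have m1 : max q (((0:ℝ) ^ 2 + h ^ 2) ^ 2 - 2 * 0 ^ 2 + h) = h ^ 4 + h := by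
    rw [max_eq_right]
    · ring
    · have : ((0:ℝ) ^ 2 + h ^ 2) ^ 2 - 2 * 0 ^ 2 + h = h ^ 4 + h := by ring
      rw [this]; exact hhq.le
  have m2 : max q ((s ^ 2 + h ^ 2) ^ 2 - 2 * s ^ 2 + h) = (s ^ 2 + h ^ 2) ^ 2 - 2 * s ^ 2 + h :=
    max_eq_right hsq.le
  have m3 : max q (((-s) ^ 2 + h ^ 2) ^ 2 - 2 * (-s) ^ 2 + h) =
      (s ^ 2 + h ^ 2) ^ 2 - 2 * s ^ 2 + h := by
    rw [neg_sq]; exact m2
  rw [m1, m2, m3] at hmid
  have : 0 < s ^ 2 := by positivity
  nlinarith [mul_pos this (by linarith : 0 < 2 - (s ^ 2 + 2 * h ^ 2))]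

lemma ff_pt01 : ff (pt 0 1) = 2 := by
  unfold ff; simp; norm_num

lemma two_mem : (2:ℝ) ∈ goodLevels ff := by
  refine ⟨?_, fun r hr => trunc_convex hr⟩
  refine iInf_le_of_le (pt 0 1) ?_
  rw [ff_pt01]

lemma scl_ff : scl ff = 2 := by
  apply le_antisymm
  · apply csInf_le
    · refine ⟨2, fun q hq => ?_⟩
      by_contra hcon
      push Not at hcon
      exact not_trunc_convex hcon (hq.2 q le_rfl)
    · exact two_mem
  · apply le_csInf ⟨2, two_mem⟩
    intro q hq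
    by_contra hcon
    push Not at hcon
    exact not_trunc_convex hcon (hq.2 q le_rfl)

lemma crit_cases {p : E 2} (hp : ∇ ff p = 0) :
    (p 0 = 0 ∧ 4 * p 1 ^ 3 = -1) ∨ (p 0 ^ 2 = 15 / 16 ∧ p 1 = -1 / 4) := by
  rw [grad_zero_iff] at hp
  obtain ⟨hA, hB⟩ := hp
  unfold AA at hA
  unfold BB at hB
  have h1 : p 0 * (p 0 ^ 2 + p 1 ^ 2 - 1) = 0 := by linarith
  rcases mul_eq_zero.1 h1 with h | h
  · left
    refine ⟨h, ?_⟩
    rw [h] at hB
    linarith
  · right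
    have h2 : p 0 ^ 2 + p 1 ^ 2 = 1 := by linarith
    rw [h2] at hB
    have h3 : p 1 = -1/4 := by linarith
    refine ⟨?_, h3⟩
    rw [h3] at h2
    linarith

lemma hess_det_ne {p : E 2} (hp : ∇ ff p = 0) :
    p 0 ^ 2 + 3 * p 1 ^ 2 ≠ 3 * (p 0 ^ 2 + p 1 ^ 2) ^ 2 := by
  rcases crit_cases hp with ⟨h0, h1⟩ | ⟨h0, h1⟩
  · rw [h0]
    intro h
    have hne : p 1 ≠ 0 := by
      rintro h2; rw [h2] at h1; norm_num at h1
    have h3 : 3 * p 1 ^ 2 * (p 1 ^ 2 - 1) = 0 := by nlinarith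
    have h4 : p 1 ^ 2 - 1 = 0 := by
      rcases mul_eq_zero.1 h3 with h5 | h5
      · exfalso
        have : p 1 ^ 2 = 0 := by linarith
        exact hne (pow_eq_zero_iff two_ne_zero |>.1 this)
      · exact h5
    have h5 : p 1 ^ 3 = p 1 := by
      have : p 1 ^ 3 = p 1 ^ 2 * p 1 := by ring
      rw [this]; have : p 1 ^ 2 = 1 := by linarith
      rw [this, one_mul]
    rw [h5] at h1
    have : p 1 = -1/4 := by linarith
    rw [this] at h4
    norm_num at h4
  · rw [h0, h1]; norm_num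

lemma normsq2 (a : E 2) : ‖a‖ ^ 2 = a 0 ^ 2 + a 1 ^ 2 := by
  rw [EuclideanSpace.norm_sq_eq, Fin.sum_univ_two]
  simp

lemma hypH : HypH ff := by
  refine ⟨by unfold ff; fun_prop, ?_, ?_, ⟨2, two_mem⟩, ?_, ?_, ?_⟩
  · -- Morse
    intro p hp v hv
    have hdet := hess_det_ne hp
    have h0 := hv (pt 1 0)
    have h1 := hv (pt 0 1)
    rw [hess_ff] at h0 h1
    simp only [pt0, pt1] at h0 h1
    have e0 : (12 * p 0 ^ 2 + 4 * p 1 ^ 2 - 4) * v 0 + (8 * p 0 * p 1) * v 1 = 0 := by linarith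
    have e1 : (8 * p 0 * p 1) * v 0 + (4 * p 0 ^ 2 + 12 * p 1 ^ 2) * v 1 = 0 := by linarith
    have hD : (16 * (3 * (p 0 ^ 2 + p 1 ^ 2) ^ 2 - (p 0 ^ 2 + 3 * p 1 ^ 2))) ≠ 0 := by
      intro h; apply hdet; linarith
    have k0 : (16 * (3 * (p 0 ^ 2 + p 1 ^ 2) ^ 2 - (p 0 ^ 2 + 3 * p 1 ^ 2))) * v 0 = 0 := by
      linear_combination (4 * p 0 ^ 2 + 12 * p 1 ^ 2) * e0 - (8 * p 0 * p 1) * e1
    have k1 : (16 * (3 * (p 0 ^ 2 + p 1 ^ 2) ^ 2 - (p 0 ^ 2 + 3 * p 1 ^ 2))) * v 1 = 0 := by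
      linear_combination (12 * p 0 ^ 2 + 4 * p 1 ^ 2 - 4) * e1 - (8 * p 0 * p 1) * e0
    ext i
    fin_cases i
    · exact (mul_eq_zero.1 k0).resolve_left hD
    · exact (mul_eq_zero.1 k1).resolve_left hD
  · -- not convex
    intro hc
    have h := hc.2 (mem_univ (pt 1 0)) (mem_univ (pt (-1) 0)) (by norm_num : (0:ℝ) ≤ 1/2)
      (by norm_num : (0:ℝ) ≤ 1/2) (by norm_num)
    have ep : (1/2 : ℝ) • pt 1 0 + (1/2 : ℝ) • pt (-1) 0 = pt 0 0 := by
      ext i
      fin_cases i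
      · show (1/2 : ℝ) * 1 + (1/2) * (-1) = 0
        ring
      · show (1/2 : ℝ) * 0 + (1/2) * 0 = 0
        ring
    rw [ep] at h
    unfold ff at h
    norm_num at h
  · rw [scl_ff]; exact ⟨_, ff_pt01⟩
  · intro p hp hcrit
    rw [scl_ff] at hp
    unfold ff at hp
    rcases crit_cases hcrit with ⟨h0, h1⟩ | ⟨h0, h1⟩
    · rw [h0] at hp
      have h3 : p 1 ≤ 0 := by
        by_contra hcon
        push Not at hcon
        have : 0 < p 1 ^ 3 := by positivity
        linarith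
      have h4 : ((0:ℝ) ^ 2 + p 1 ^ 2) ^ 2 - 2 * 0 ^ 2 + p 1 = p 1 * (p 1 ^ 3 + 1) := by ring
      rw [h4] at hp
      have h5 : p 1 ^ 3 + 1 = 3 / 4 := by linarith
      rw [h5] at hp
      linarith
    · rw [h0, h1] at hp; norm_num at hp
  · intro p hp
    rw [scl_ff] at hp
    have hp' : 2 < ff p := hp
    have h := out_of_disc hp'
    rw [mem_hessPos]
    nlinarith [sq_nonneg (p 0), sq_nonneg (p 1)]

/-! ### Joining the two minima inside `R(f)` -/

lemma mem_RR {p : E 2} (h1 : p 0 ^ 2 + 3 * p 1 ^ 2 < 3 * (p 0 ^ 2 + p 1 ^ 2) ^ 2)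
    (h2 : ff p ≤ 2) : p ∈ RR ff := by
  refine ⟨(mem_hessPos p).2 h1, ?_⟩
  intro h
  have h' : scl ff < ff p := h
  rw [scl_ff] at h'
  linarith

noncomputable def w : ℝ := Real.sqrt 15 / 4

lemma w_sq : w ^ 2 = 15 / 16 := by
  unfold w
  rw [div_pow, Real.sq_sqrt (by norm_num)]; norm_num

lemma w_pos : 0 < w := by unfold w; positivity

lemma seg_coord {a b p : E 2} (hp : p ∈ segment ℝ a b) :
    ∃ s t : ℝ, 0 ≤ s ∧ 0 ≤ t ∧ s + t = 1 ∧ p 0 = s * a 0 + t * b 0 ∧ p 1 = s * a 1 + t * b 1 := by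
  obtain ⟨s, t, hs, ht, hst, rfl⟩ := hp
  exact ⟨s, t, hs, ht, hst, by simp, by simp⟩

/-! ### `R(f)` is connected -/

lemma mem_RR_iff {p : E 2} : p ∈ RR ff ↔
    p 0 ^ 2 + 3 * p 1 ^ 2 < 3 * (p 0 ^ 2 + p 1 ^ 2) ^ 2 ∧ ff p ≤ 2 := by
  constructor
  · rintro ⟨h1, h2⟩
    refine ⟨(mem_hessPos p).1 h1, ?_⟩
    by_contra hcon
    push Not at hcon
    apply h2
    show scl ff < ff p
    rw [scl_ff]; exact hcon
  · rintro ⟨h1, h2⟩
    exact mem_RR h1 h2

lemma continuous_pt {α : Type*} [TopologicalSpace α] {u v : α → ℝ} (hu : Continuous u)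
    (hv : Continuous v) : Continuous fun x => pt (u x) (v x) := by
  unfold pt
  refine (PiLp.continuous_toLp 2 _).comp ?_
  refine continuous_pi fun i => ?_
  fin_cases i
  · exact hu
  · exact hv

/-- the open half circles -/
noncomputable def arc (e : ℝ) : Set (E 2) :=
  (fun y : ℝ => pt (e * Real.sqrt (1 - y ^ 2)) y) '' Ioo (-1) 1

/-- the lower half circle of radius `11/10` -/
noncomputable def low : Set (E 2) :=
  (fun x : ℝ => pt x (-Real.sqrt (121 / 100 - x ^ 2))) '' Icc (-11/10) (11/10)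

lemma arc_conn (e : ℝ) : IsPreconnected (arc e) := by
  apply isPreconnected_Ioo.image
  apply Continuous.continuousOn
  apply continuous_pt
  · fun_prop
  · fun_prop

lemma low_conn : IsPreconnected low := by
  apply isPreconnected_Icc.image
  apply Continuous.continuousOn
  apply continuous_pt
  · fun_prop
  · fun_prop

lemma arc_sub {e : ℝ} (he : e ^ 2 = 1) : arc e ⊆ RR ff := by
  rintro _ ⟨y, ⟨hy1, hy2⟩, rfl⟩
  have h : 0 < 1 - y ^ 2 := by nlinarith
  have hs : Real.sqrt (1 - y ^ 2) ^ 2 = 1 - y ^ 2 := Real.sq_sqrt h.le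
  have e0 : (e * Real.sqrt (1 - y ^ 2)) ^ 2 = 1 - y ^ 2 := by rw [mul_pow, he, hs, one_mul]
  apply mem_RR
  · simp only [pt0, pt1, e0]; nlinarith
  · unfold ff; simp only [pt0, pt1, e0]; nlinarith

lemma low_sub : low ⊆ RR ff := by
  rintro _ ⟨x, ⟨hx1, hx2⟩, rfl⟩
  have h : 0 ≤ 121 / 100 - x ^ 2 := by nlinarith
  have hs : Real.sqrt (121 / 100 - x ^ 2) ^ 2 = 121 / 100 - x ^ 2 := Real.sq_sqrt h
  have e0 : (-Real.sqrt (121 / 100 - x ^ 2)) ^ 2 = 121 / 100 - x ^ 2 := by rw [neg_sq, hs]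
  have h0 := Real.sqrt_nonneg (121 / 100 - x ^ 2)
  apply mem_RR
  · simp only [pt0, pt1, e0]; nlinarith [sq_nonneg x]
  · unfold ff; simp only [pt0, pt1, e0]; nlinarith [sq_nonneg x]

lemma seg_conn (a b : E 2) : IsPreconnected (segment ℝ a b) := (convex_segment _ _).isPreconnected

/-- the short horizontal segment between the two circles -/
lemma link_sub {e : ℝ} (he : e ^ 2 = 1) {p : E 2}
    (hp : p ∈ segment ℝ (pt e 0) (pt (e * (11/10)) 0)) : p ∈ RR ff := by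
  obtain ⟨s, t, hs, ht, hst, h0, h1⟩ := seg_coord hp
  simp only [pt0, pt1] at h0 h1
  have e1 : p 1 = 0 := by rw [h1]; ring
  have e2 : p 0 ^ 2 = (s + t * (11/10)) ^ 2 := by
    rw [h0]
    have : (s * e + t * (e * (11/10))) ^ 2 = e ^ 2 * (s + t * (11/10)) ^ 2 := by ring
    rw [this, he, one_mul]
  have l1 : 1 ≤ p 0 ^ 2 := by rw [e2]; nlinarith
  have l2 : p 0 ^ 2 ≤ 121 / 100 := by
    rw [e2]
    have : s + t * (11/10) ≤ 11/10 := by nlinarith
    nlinarith
  apply mem_RR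
  · rw [e1]; nlinarith
  · unfold ff; rw [e1]; nlinarith

/-- the connected backbone -/
noncomputable def BB' : Set (E 2) :=
  (low ∪ (segment ℝ (pt 1 0) (pt (1 * (11/10)) 0) ∪ arc 1)) ∪
    (segment ℝ (pt (-1) 0) (pt ((-1) * (11/10)) 0) ∪ arc (-1))

lemma mem_arc_zero {e : ℝ} : pt e 0 ∈ arc e := by
  refine ⟨0, ⟨by norm_num, by norm_num⟩, ?_⟩
  simp

lemma mem_low {x : ℝ} (hx : x ^ 2 = 121 / 100) : pt x 0 ∈ low := by
  refine ⟨x, ⟨by nlinarith, by nlinarith⟩, ?_⟩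
  simp [hx]

lemma mem_low' : pt 0 (-11/10) ∈ low := by
  refine ⟨0, ⟨by norm_num, by norm_num⟩, ?_⟩
  have : Real.sqrt (121 / 100) = 11 / 10 := by
    rw [show (121 / 100 : ℝ) = (11 / 10) ^ 2 by norm_num]
    exact Real.sqrt_sq (by norm_num)
  simp only
  congr 1
  rw [show (121 / 100 - (0:ℝ) ^ 2 : ℝ) = 121 / 100 by norm_num, this]
  norm_num

lemma BB_conn : IsPreconnected BB' := by
  have a1 : IsPreconnected (segment ℝ (pt 1 0) (pt (1 * (11/10)) 0) ∪ arc 1) :=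
    (seg_conn _ _).union (pt 1 0) (left_mem_segment _ _ _) mem_arc_zero (arc_conn 1)
  have a2 : IsPreconnected (segment ℝ (pt (-1) 0) (pt ((-1) * (11/10)) 0) ∪ arc (-1)) :=
    (seg_conn _ _).union (pt (-1) 0) (left_mem_segment _ _ _) mem_arc_zero (arc_conn (-1))
  have a3 : IsPreconnected (low ∪ (segment ℝ (pt 1 0) (pt (1 * (11/10)) 0) ∪ arc 1)) :=
    low_conn.union (pt (1 * (11/10)) 0) (mem_low (by norm_num))
      (Or.inl (right_mem_segment _ _ _)) a1
  exact a3.union (pt ((-1) * (11/10)) 0) (Or.inl (mem_low (by norm_num)))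
      (Or.inl (right_mem_segment _ _ _)) a2

lemma BB_sub : BB' ⊆ RR ff := by
  rintro p ((hp | hp | hp) | hp | hp)
  · exact low_sub hp
  · exact link_sub (by norm_num) hp
  · exact arc_sub (by norm_num) hp
  · exact link_sub (by norm_num) hp
  · exact arc_sub (by norm_num) hp

lemma arc_sub_BB {e : ℝ} (he : e = 1 ∨ e = -1) : arc e ⊆ BB' := by
  rcases he with rfl | rfl
  · exact fun p hp => Or.inl (Or.inr (Or.inr hp))
  · exact fun p hp => Or.inr (Or.inr hp)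

/-- a point of the unit circle off the vertical axis lies on one of the two arcs -/
lemma mem_arc {p : E 2} (h0 : p 0 ≠ 0) (h : p 0 ^ 2 + p 1 ^ 2 = 1) : p ∈ BB' := by
  have h1 : 0 < p 0 ^ 2 := by positivity
  have hy : p 1 ∈ Ioo (-1 : ℝ) 1 := ⟨by nlinarith, by nlinarith⟩
  have hr : 1 - p 1 ^ 2 = p 0 ^ 2 := by linarith
  rcases lt_or_gt_of_ne h0 with h2 | h2
  · apply arc_sub_BB (Or.inr rfl)
    refine ⟨p 1, hy, ?_⟩
    ext i
    fin_cases i
    · show (-1) * Real.sqrt (1 - p 1 ^ 2) = p 0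
      rw [hr, Real.sqrt_sq_eq_abs, abs_of_neg h2]; ring
    · rfl
  · apply arc_sub_BB (Or.inl rfl)
    refine ⟨p 1, hy, ?_⟩
    ext i
    fin_cases i
    · show 1 * Real.sqrt (1 - p 1 ^ 2) = p 0
      rw [hr, Real.sqrt_sq_eq_abs, abs_of_pos h2]; ring
    · rfl

/-- every point of `R(f)` is joined to the backbone by a segment inside `R(f)` -/
lemma join {p : E 2} (hp : p ∈ RR ff) : ∃ q ∈ BB', segment ℝ p q ⊆ RR ff := by
  obtain ⟨hH, hF⟩ := mem_RR_iff.1 hp
  by_cases h0 : p 0 = 0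
  · -- vertical axis
    rw [h0] at hH
    unfold ff at hF
    rw [h0] at hF
    have hne : p 1 ≠ 0 := by
      intro h; rw [h] at hH; norm_num at hH
    have hpos : 0 < p 1 ^ 2 := by positivity
    have hsq : 1 < p 1 ^ 2 := by
      by_contra hcon
      push Not at hcon
      nlinarith
    have hlt : p 1 < -1 := by
      by_contra hcon
      push Not at hcon
      have : 1 < p 1 := by nlinarith
      nlinarith
    refine ⟨pt 0 (-11/10), Or.inl (Or.inl mem_low'), ?_⟩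
    intro z hz
    obtain ⟨s, t, hs, ht, hst, h2, h3⟩ := seg_coord hz
    simp only [pt0, pt1] at h2 h3
    have z0 : z 0 = 0 := by rw [h2, h0]; ring
    have z1 : z 1 < -1 := by
      rw [h3]
      rcases eq_or_lt_of_le hs with h | h
      · rw [← h]; have : t = 1 := by linarith
        rw [this]; norm_num
      · nlinarith
    apply mem_RR
    · have hz2 : 1 < z 1 ^ 2 := by nlinarith
      rw [z0]; nlinarith
    · have hc := (trunc_convex (le_refl (2:ℝ))).2 (mem_univ p) (mem_univ (pt 0 (-11/10))) hs ht hst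
      have hz' : s • p + t • pt 0 (-11/10) = z := by
        ext i
        fin_cases i
        · show s * p 0 + t * 0 = z 0
          rw [z0, h0]; ring
        · show s * p 1 + t * (-11/10) = z 1
          rw [h3]
      rw [hz'] at hc
      unfold trunc at hc
      have m1 : max 2 (ff p) = 2 := by
        apply max_eq_left
        unfold ff; rw [h0]; exact hF
      have m2 : max 2 (ff (pt 0 (-11/10))) = 2 := by
        apply max_eq_left
        unfold ff; simp only [pt0, pt1]; norm_num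
      rw [m1, m2] at hc
      have : ff z ≤ s • (2:ℝ) + t • (2:ℝ) := le_trans (le_max_right _ _) hc
      simp only [smul_eq_mul] at this
      nlinarith
  · have hX : 0 < p 0 ^ 2 := by positivity
    rcases le_total (p 0 ^ 2 + p 1 ^ 2) 1 with h | h
    · -- move horizontally to the unit circle
      set x1 : ℝ := (p 0 / |p 0|) * Real.sqrt (1 - p 1 ^ 2) with hx1
      have habs : 0 < |p 0| := abs_pos.2 h0
      have hr : 0 ≤ 1 - p 1 ^ 2 := by linarith
      have hs1 : Real.sqrt (1 - p 1 ^ 2) ^ 2 = 1 - p 1 ^ 2 := Real.sq_sqrt hr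
      have hsg : (p 0 / |p 0|) ^ 2 = 1 := by
        rw [div_pow, sq_abs]; exact div_self hX.ne'
      have hx2 : x1 ^ 2 = 1 - p 1 ^ 2 := by rw [hx1, mul_pow, hsg, hs1, one_mul]
      have hx3 : 0 < Real.sqrt (1 - p 1 ^ 2) := by
        apply Real.sqrt_pos.2; linarith
      have hxm : 0 ≤ p 0 * x1 := by
        have : p 0 * x1 = (p 0 ^ 2 / |p 0|) * Real.sqrt (1 - p 1 ^ 2) := by rw [hx1]; ring
        rw [this]; positivity
      have hxne : x1 ≠ 0 := by
        intro h1; rw [h1] at hx2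
        have : 0 < Real.sqrt (1 - p 1 ^ 2) ^ 2 := by positivity
        rw [hs1, ← hx2] at this
        norm_num at this
      refine ⟨pt x1 (p 1), mem_arc (by simpa using hxne) (by simp only [pt0, pt1]; rw [hx2]; ring), ?_⟩
      intro z hz
      obtain ⟨s, t, hs, ht, hst, h2, h3⟩ := seg_coord hz
      simp only [pt0, pt1] at h2 h3
      have z1 : z 1 = p 1 := by rw [h3, ← add_mul, hst, one_mul]
      have habs_le : p 0 ^ 2 ≤ x1 ^ 2 := by rw [hx2]; linarith
      have hmul : p 0 ^ 2 ≤ p 0 * x1 := by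
        have h4 : |p 0| ≤ |x1| := sq_le_sq.1 habs_le
        have h5 : p 0 * x1 = |p 0| * |x1| := by rw [← abs_mul, abs_of_nonneg hxm]
        rw [h5, ← sq_abs (p 0)]
        nlinarith [abs_nonneg (p 0)]
      have ht1 : s = 1 - t := by linarith
      have lz : p 0 ^ 2 ≤ z 0 ^ 2 := by
        have e : z 0 ^ 2 - p 0 ^ 2 = 2 * (t * (p 0 * x1 - p 0 ^ 2)) + t ^ 2 * (x1 - p 0) ^ 2 := by
          rw [h2, ht1]; ring
        have k1 : 0 ≤ t * (p 0 * x1 - p 0 ^ 2) := mul_nonneg ht (by linarith)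
        have k2 : 0 ≤ t ^ 2 * (x1 - p 0) ^ 2 := by positivity
        linarith
      have uz : z 0 ^ 2 ≤ 1 - p 1 ^ 2 := by
        have e : x1 ^ 2 - z 0 ^ 2 = s * (x1 ^ 2 - p 0 ^ 2) + (s * t) * (x1 - p 0) ^ 2 := by
          rw [h2]; have : t = 1 - s := by linarith
          rw [this]; ring
        have k1 : 0 ≤ s * (x1 ^ 2 - p 0 ^ 2) := mul_nonneg hs (by linarith)
        have k2 : 0 ≤ (s * t) * (x1 - p 0) ^ 2 := by positivity
        linarith
      have hbig : 1 / 3 < p 0 ^ 2 + p 1 ^ 2 := by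
        by_contra hcon
        push Not at hcon
        nlinarith [sq_nonneg (p 1)]
      apply mem_RR
      · rw [z1]
        have e : 3 * (z 0 ^ 2 + p 1 ^ 2) ^ 2 - (z 0 ^ 2 + 3 * p 1 ^ 2) =
            (3 * (p 0 ^ 2 + p 1 ^ 2) ^ 2 - (p 0 ^ 2 + 3 * p 1 ^ 2)) +
            (z 0 ^ 2 - p 0 ^ 2) * (3 * (z 0 ^ 2 + p 0 ^ 2 + 2 * p 1 ^ 2) - 1) := by ring
        have : 0 ≤ (z 0 ^ 2 - p 0 ^ 2) * (3 * (z 0 ^ 2 + p 0 ^ 2 + 2 * p 1 ^ 2) - 1) := by
          apply mul_nonneg (by linarith)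
          nlinarith [sq_nonneg (p 1)]
        linarith
      · unfold ff at hF ⊢
        rw [z1]
        have e : (z 0 ^ 2 + p 1 ^ 2) ^ 2 - 2 * z 0 ^ 2 + p 1 =
            ((p 0 ^ 2 + p 1 ^ 2) ^ 2 - 2 * p 0 ^ 2 + p 1) -
            (z 0 ^ 2 - p 0 ^ 2) * (2 - (z 0 ^ 2 + p 0 ^ 2 + 2 * p 1 ^ 2)) := by ring
        have : 0 ≤ (z 0 ^ 2 - p 0 ^ 2) * (2 - (z 0 ^ 2 + p 0 ^ 2 + 2 * p 1 ^ 2)) := by
          apply mul_nonneg (by linarith)
          linarith
        linarith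
    · -- move radially to the unit circle
      set r : ℝ := Real.sqrt (p 0 ^ 2 + p 1 ^ 2) with hr
      have hr2 : r ^ 2 = p 0 ^ 2 + p 1 ^ 2 := Real.sq_sqrt (by positivity)
      have hr1 : 1 ≤ r := Real.one_le_sqrt.2 h
      have hrpos : 0 < r := by linarith
      refine ⟨pt (p 0 / r) (p 1 / r), mem_arc ?_ ?_, ?_⟩
      · simp only [pt0]; exact div_ne_zero h0 hrpos.ne'
      · simp only [pt0, pt1]
        rw [div_pow, div_pow, ← add_div, ← hr2]
        exact div_self (by positivity)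
      intro z hz
      obtain ⟨s, t, hs, ht, hst, h2, h3⟩ := seg_coord hz
      simp only [pt0, pt1] at h2 h3
      set l : ℝ := s + t / r with hl
      have z0 : z 0 = l * p 0 := by rw [h2, hl]; ring
      have z1 : z 1 = l * p 1 := by rw [h3, hl]; ring
      have hl1 : l ≤ 1 := by
        have : t / r ≤ t := div_le_self ht hr1
        linarith
      have hlr : 1 ≤ l * r := by
        have : l * r = s * r + t := by rw [hl]; field_simp
        rw [this]; nlinarith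
      have hl0 : 0 < l := by
        by_contra hcon
        push Not at hcon
        nlinarith
      have hlr2 : 1 ≤ l ^ 2 * (p 0 ^ 2 + p 1 ^ 2) := by
        rw [← hr2, ← mul_pow]; nlinarith
      apply mem_RR
      · rw [z0, z1]
        have e : 3 * ((l * p 0) ^ 2 + (l * p 1) ^ 2) ^ 2 - ((l * p 0) ^ 2 + 3 * (l * p 1) ^ 2) =
          l ^ 2 * (3 * (l ^ 2 * (p 0 ^ 2 + p 1 ^ 2) - 1) * (p 0 ^ 2 + p 1 ^ 2) + 2 * p 0 ^ 2) := by ring
        have : 0 < l ^ 2 * (3 * (l ^ 2 * (p 0 ^ 2 + p 1 ^ 2) - 1) * (p 0 ^ 2 + p 1 ^ 2) +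
            2 * p 0 ^ 2) := by
          apply mul_pos (by positivity)
          have : 0 ≤ 3 * (l ^ 2 * (p 0 ^ 2 + p 1 ^ 2) - 1) * (p 0 ^ 2 + p 1 ^ 2) :=
            mul_nonneg (by linarith) (by positivity)
          linarith
        linarith
      · have hc := (trunc_convex (le_refl (2:ℝ))).2 (mem_univ p) (mem_univ (pt 0 0)) hl0.le
          (by linarith : 0 ≤ 1 - l) (by ring)
        have hz' : l • p + (1 - l) • pt 0 0 = z := by
          ext i
          fin_cases i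
          · show l * p 0 + (1 - l) * 0 = z 0
            rw [z0]; ring
          · show l * p 1 + (1 - l) * 0 = z 1
            rw [z1]; ring
        rw [hz'] at hc
        unfold trunc at hc
        have m1 : max 2 (ff p) = 2 := max_eq_left hF
        have m2 : max 2 (ff (pt 0 0)) = 2 := by
          apply max_eq_left
          unfold ff; simp only [pt0, pt1]; norm_num
        rw [m1, m2] at hc
        have : ff z ≤ l • (2:ℝ) + (1 - l) • (2:ℝ) := le_trans (le_max_right _ _) hc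
        simp only [smul_eq_mul] at this
        linarith

lemma RR_conn : IsPreconnected (RR ff) := by
  refine isPreconnected_of_forall (pt 0 (-11/10)) fun p hp => ?_
  obtain ⟨q, hq, hseg⟩ := join hp
  refine ⟨BB' ∪ segment ℝ p q, ?_, Or.inl (Or.inl (Or.inl mem_low')),
    Or.inr (left_mem_segment _ _ _), BB_conn.union q hq (right_mem_segment _ _ _) (seg_conn _ _)⟩
  rintro z (hz | hz)
  · exact BB_sub hz
  · exact hseg hz

lemma numComp_le : numComp (RR ff) ≤ 1 := by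
  have : PreconnectedSpace ↥(RR ff) := isPreconnected_iff_preconnectedSpace.1 RR_conn
  unfold numComp
  exact ENat.card_le_one_iff_subsingleton _ |>.2 inferInstance

lemma three_le : 3 ≤ (crit ff).encard := by
  have hw2 := w_sq
  have hw := w_pos
  have hg : ∀ x : ℝ, x ^ 2 = 15 / 16 → pt x (-1/4) ∈ crit ff := by
    intro x hx
    show ∇ ff _ = 0
    rw [grad_zero_iff]
    unfold AA BB
    simp only [pt0, pt1]
    constructor
    · rw [hx]; ring
    · rw [hx]; norm_num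
  obtain ⟨c, hc⟩ : ∃ c : ℝ, 4 * c ^ 3 = -1 := by
    refine ⟨-((1 / 4 : ℝ) ^ (1 / 3 : ℝ)), ?_⟩
    have : ((1 / 4 : ℝ) ^ (1 / 3 : ℝ)) ^ 3 = 1 / 4 := by
      rw [← Real.rpow_natCast, ← Real.rpow_mul (by norm_num)]
      norm_num
    have e : (-((1 / 4 : ℝ) ^ (1 / 3 : ℝ))) ^ 3 = -(((1 / 4 : ℝ) ^ (1 / 3 : ℝ)) ^ 3) := by ring
    rw [e, this]; norm_num
  have hgc : pt 0 c ∈ crit ff := by
    show ∇ ff _ = 0
    rw [grad_zero_iff]
    unfold AA BB
    simp only [pt0, pt1]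
    constructor
    · ring
    · linarith
  have hsub : ({pt w (-1/4), pt (-w) (-1/4), pt 0 c} : Set (E 2)) ⊆ crit ff := by
    rintro p (rfl | rfl | rfl)
    · exact hg w hw2
    · exact hg (-w) (by rw [neg_sq]; exact hw2)
    · exact hgc
  refine le_trans ?_ (encard_le_encard hsub)
  rw [encard_insert_of_notMem, encard_pair]
  · norm_num
  · intro h
    have : -w = 0 := congrArg (fun z : E 2 => z 0) h
    linarith
  · rintro (h | h)
    · have : w = -w := congrArg (fun z : E 2 => z 0) h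
      linarith
    · have : w = 0 := congrArg (fun z : E 2 => z 0) h
      linarith

/-- The valence formula is false: some function satisfying (H) violates it. -/
theorem result : ¬ ∀ (n : ℕ) (f : E n → ℝ), 1 ≤ n → HypH f →
    valence (∇ f) = (crit f).encard ∧ (crit f).encard = numComp (RR f) + 1 := by
  intro h
  have h1 := (h 2 ff (by norm_num) hypH).2
  have h2 := three_le
  have h3 := numComp_le
  rw [h1] at h2
  have h4 : (3:ℕ∞) ≤ 1 + 1 := h2.trans (by gcongr)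
  norm_num at h4

end Pool.Agent.Results.MP_d7bb9e_an.ConnectedRegion
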